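import Pool.Agent.Lib.MP_5fbfc2_al.CC.RelBound

/-!
# MP_5fbfc2_al: bounded (relative) class sizes and the commuting conductor

`Ccomm G` is defined in `Pool/Agent/Lib/MP_5fbfc2_al/IndDefs.lean`.
-/

namespace Pool.Agent.Results.MP_5fbfc2_al.BoundedClasses

open Pool.Agent.MP_5fbfc2_al Pool.Agent.MP_5fbfc2_al.CC

/-- **Theorem.**  For every `c` there is `N` such that every subgroup `K` of a finite group `G` with
`|K : C_K(v)| ≤ c` for all `v ∈ G`, such that no prime divisor of `|K|` lies in `Ccomm(G)`,
satisfies `|K : Z(K)| ≤ N` and `|K'| ≤ N`.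

With `K = G`: for every `c` there is `N` such that every finite group `G` with `Ccomm(G) = ∅`, all
of whose conjugacy classes have at most `c` elements, satisfies `|G : Z(G)| ≤ N` and `|G'| ≤ N`.
So, for every `c`, all these groups lie in finitely many isoclinism classes. -/
theorem result (c : ℕ) : ∃ N : ℕ, ∀ (G : Type) [Group G] [Finite G] (K : Subgroup G),
    (∀ v : G, ((Subgroup.centralizer ({v} : Set G)).subgroupOf K).index ≤ c) →
    (∀ p ∈ Ccomm G, ¬ p ∣ Nat.card K) →
    (Subgroup.center K).index ≤ N ∧ Nat.card (commutator K) ≤ N :=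
  bound_of_rel_class_sizes c

end Pool.Agent.Results.MP_5fbfc2_al.BoundedClasses
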