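import Pool.Agent.Lib.MP_5fbfc2_al.IndSpan

/-!
# MP_5fbfc2_al: the commuting conductor of groups with independent centralisers

`Ccomm G`, `IndependentCentralizers G` and the other notions are defined in
`Pool/Agent/Lib/MP_5fbfc2_al/IndDefs.lean`.
-/

namespace Pool.Agent.Results.MP_5fbfc2_al.IndependentCentralisers

open Pool.Agent.MP_5fbfc2_al

/-- **Theorem.**  Let `G` be a finite group such that the indicator functions of the distinct
centralisers `C(g)`, `g ∈ G`, are linearly independent over `ℚ`.

(1) Let `Q` be a `p`-subgroup of `G` not contained in the centre.  If `p` divides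
`|C(g) : Z(G)|` for every noncentral `g` whose centraliser is normalised by `Q`, then
`p ∈ Ccomm(G)`.

(2) This applies to every noncentral normal `p`-subgroup: such a `p` lies in `Ccomm(G)`.

(3) Hence `Ccomm(G) ≠ ∅` if `G` is solvable and not abelian. -/
theorem result (G : Type) [Group G] [Finite G] (hI : IndependentCentralizers G) :
    (∀ p : ℕ, p.Prime → ∀ Q : Subgroup G, IsPGroup p Q → ¬ Q ≤ Subgroup.center G →
        (∀ g : G, g ∉ Subgroup.center G →
          (∀ x ∈ Q, (Subgroup.centralizer ({g} : Set G)).map (MulAut.conj x).toMonoidHom =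
            Subgroup.centralizer ({g} : Set G)) →
          p ∣ (Subgroup.center G).relIndex (Subgroup.centralizer ({g} : Set G))) →
        p ∈ Ccomm G) ∧
    (∀ p : ℕ, p.Prime → ∀ Q : Subgroup G, Q.Normal → IsPGroup p Q → ¬ Q ≤ Subgroup.center G →
        p ∈ Ccomm G) ∧
    (Group.IsSolvable G → (¬ ∀ x y : G, x * y = y * x) → (Ccomm G).Nonempty) := by
  refine ⟨?_, ?_, ?_⟩
  · intro p hp Q hQ hQZ hfix
    exact mem_Ccomm_of_noncentral hp hI Q hQ hQZ hfix
  · intro p hp Q hN hQ hQZ
    exact mem_Ccomm_of_normal hp hI Q hQ hQZ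
  · intro hs hab
    obtain ⟨p, hp, R, hR, hRp, hRZ⟩ := IC.exists_normal_pSubgroup hab
    exact ⟨p, mem_Ccomm_of_normal hp hI R hRp hRZ⟩

end Pool.Agent.Results.MP_5fbfc2_al.IndependentCentralisers
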