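import Mathlib
import Pool.Agent.Lib.MP_5fbfc2_al.LP.CyclicPairs
import Pool.Agent.Lib.MP_5fbfc2_al.LP.Frobenius
import Pool.Agent.Lib.MP_5fbfc2_al.LP.SLn
import Pool.Agent.Lib.MP_5fbfc2_al.LP.AltMore
import Pool.Agent.Lib.MP_5fbfc2_al.LP.SymSmall
import Pool.Agent.Lib.MP_5fbfc2_al.LP.Iso

/-!
# Groups with a centraliser partitioned by centralisers have a non-empty commuting conductor

Let `g₀` be an element of a finite group `G` and `A` a finite non-empty set of elements whose
centralisers are contained in `C(g₀)`, such that no member of `A` commutes with all members of `A`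
and every element of `C(g₀)` commutes either with exactly one or with all members of `A`. Then
`|A| ≥ 3` and every prime divisor of `|A| - 1` lies in the commuting conductor of `G`.

Consequently the conductor of a non-abelian group in which the intersection of the centralisers of
two commuting elements is always the centraliser of an element is not empty: a minimal non-abelian
centraliser `C(g₀)` is covered in this way by abelian centralisers. This applies to the groups in
which two commuting elements always generate a cyclic subgroup. The criterion also gives the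
Frobenius groups whose kernel and complement have nontrivial centres, the symmetric groups of degree
at least seven, the alternating groups of degree at least four and different from `6` and `8` and,
for all `n ≥ 2`, the groups `GL_n(q)` for `q ≥ 4`, `SL_n(q)` for odd `q ≥ 5` and `PSL_n(q)` for odd
`q ≥ 7`. The symmetric groups of degree three to six are treated with the sign character.
-/

namespace Pool.Agent.Results.MP_5fbfc2_al.LocalPartition

open MP5fbfc2

theorem result (G : Type*) [Group G] [Finite G]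
    (hG :
      -- a centraliser `C(g₀)` partitioned by centralisers
      (∃ (g₀ : G) (A : Finset G), A.Nonempty ∧
        (∀ a ∈ A, Subgroup.centralizer {a} ≤ Subgroup.centralizer {g₀}) ∧
        (∀ a ∈ A, ∃ b ∈ A, a * b ≠ b * a) ∧
        (∀ h ∈ Subgroup.centralizer {g₀},
          (∀ a ∈ A, h * a = a * h) ∨ (∃! a, a ∈ A ∧ h * a = a * h))) ∨
      -- non-abelian, and `C(g) ∩ C(a)` is a centraliser for commuting `g`, `a`
      ((∃ x y : G, x * y ≠ y * x) ∧
        ∀ g a : G, g * a = a * g → ∃ c : G, Subgroup.centralizer {c} =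
          Subgroup.centralizer {g} ⊓ Subgroup.centralizer {a}) ∨
      -- non-abelian, and commuting elements generate cyclic subgroups
      ((∃ x y : G, x * y ≠ y * x) ∧
        ∀ g a : G, g * a = a * g → IsCyclic (Subgroup.closure {g, a})) ∨
      -- a Frobenius group whose kernel and complement have nontrivial centres
      (∃ N H : Subgroup G, N.Normal ∧ N.IsComplement' H ∧
        (∀ h ∈ H, h ≠ 1 → ∀ n ∈ N, n ≠ 1 → h * n ≠ n * h) ∧
        Nontrivial (Subgroup.center N) ∧ Nontrivial (Subgroup.center H)) ∨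
      -- a symmetric, alternating or linear group
      (∃ n : ℕ, 3 ≤ n ∧ Nonempty (G ≃* Equiv.Perm (Fin n))) ∨
      (∃ n : ℕ, 4 ≤ n ∧ n ≠ 6 ∧ n ≠ 8 ∧ Nonempty (G ≃* alternatingGroup (Fin n))) ∨
      (∃ (F : Type) (_ : Field F) (_ : Finite F) (n : ℕ), 2 ≤ n ∧
        ((4 ≤ Nat.card F ∧ Nonempty (G ≃* Matrix.GeneralLinearGroup (Fin n) F)) ∨
          (5 ≤ Nat.card F ∧ Odd (Nat.card F) ∧
            Nonempty (G ≃* Matrix.SpecialLinearGroup (Fin n) F)) ∨
          (7 ≤ Nat.card F ∧ Odd (Nat.card F) ∧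
            Nonempty (G ≃* Matrix.ProjectiveSpecialLinearGroup (Fin n) F))))) :
    (Ccomm G).Nonempty := by
  rcases hG with ⟨g₀, A, hA, h1, h2, h3⟩ | ⟨h2, h1⟩ | ⟨h2, h1⟩ | ⟨N, H, hN, hNH, hF, hZN, hZH⟩ |
    ⟨n, hn, ⟨e⟩⟩ | ⟨n, hn, hn6, hn8, ⟨e⟩⟩ | ⟨F, _, _, n, hn, hF⟩
  · have h1' : ∀ a ∈ A, ∀ h, h * a = a * h → h * g₀ = g₀ * h := by
      intro a ha h hh
      exact Subgroup.mem_centralizer_singleton_iff.mp
        (h1 a ha (Subgroup.mem_centralizer_singleton_iff.mpr hh))
    have h3' : ∀ h, h * g₀ = g₀ * h → (∀ a ∈ A, h * a = a * h) ∨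
        (∃! a, a ∈ A ∧ h * a = a * h) := by
      intro h hh
      exact h3 h (Subgroup.mem_centralizer_singleton_iff.mpr hh)
    have h4 := three_le_card g₀ A hA h1' h2 h3'
    obtain ⟨p, hp, hpA⟩ := Nat.exists_prime_and_dvd (n := A.card - 1) (by omega)
    exact ⟨p, mem_Ccomm_of_partition g₀ A hA h1' h2 h3' hp hpA⟩
  · exact nonempty_of_closed h1 h2
  · exact nonempty_of_cyclic_pairs h1 h2
  · have hF' : ∀ h ∈ H, h ≠ 1 → ∀ n ∈ N, h * n = n * h → n = 1 := by
      intro h hh hh1 n hn hhn
      by_contra hn1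
      exact hF h hh hh1 n hn hn1 hhn
    have hcen : ∀ K : Subgroup G, Nontrivial (Subgroup.center K) →
        ∃ k ∈ K, k ≠ 1 ∧ ∀ m ∈ K, k * m = m * k := by
      intro K hK
      obtain ⟨z, hz⟩ := exists_ne (1 : Subgroup.center K)
      refine ⟨((z : K) : G), (z : K).2, ?_, ?_⟩
      · intro h
        exact hz (Subtype.ext (Subtype.ext h))
      · intro m hm
        have h1 := Subgroup.mem_center_iff.mp z.2 ⟨m, hm⟩
        exact (congrArg Subtype.val h1).symm
    obtain ⟨k, hkN, hk1, _⟩ := hcen N hZN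
    have hN1 : Nat.card N ≠ 1 := by
      intro h
      have := (Subgroup.card_eq_one.mp h) ▸ hkN
      exact hk1 (Subgroup.mem_bot.mp this)
    obtain ⟨p, hp, hpN⟩ := Nat.exists_prime_and_dvd hN1
    exact ⟨p, mem_Ccomm_of_frobenius N H hNH hF' (hcen N hZN) (hcen H hZH) hp hpN⟩
  · rw [Ccomm_equiv e]
    rcases Nat.lt_or_ge n 7 with h7 | h7
    · have : (n = 3 ∧ 3 = 3) ∨ (n = 4 ∧ 3 = 3) ∨ (n = 5 ∧ 3 = 5) ∨ (n = 6 ∧ 3 = 5) ∨
          (n = 5 ∨ n = 6) := by omega
      rcases this with h | h | h | h | h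
      · exact ⟨3, mem_Ccomm_small (by omega)⟩
      · exact ⟨3, mem_Ccomm_small (by omega)⟩
      · omega
      · omega
      · exact ⟨5, mem_Ccomm_small (by omega)⟩
    · exact ⟨3, three_mem_Ccomm h7⟩
  · rw [Ccomm_equiv e]
    exact ⟨2, two_mem_Ccomm_alt' hn hn6 hn8⟩
  · obtain ⟨p, hp, hpF⟩ : ∃ p : ℕ, p.Prime ∧ p ∣ Nat.card F * (Nat.card F + 1) := by
      apply Nat.exists_prime_and_dvd
      have : 2 ≤ Nat.card F := Finite.one_lt_card
      nlinarith
    rcases hF with ⟨hF, ⟨e⟩⟩ | ⟨hF, hodd, ⟨e⟩⟩ | ⟨hF, hodd, ⟨e⟩⟩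
    · rw [Ccomm_equiv e]
      have : Fintype F := Fintype.ofFinite F
      rw [Nat.card_eq_fintype_card] at hF hpF
      exact ⟨p, mem_Ccomm_GL hF hn hp hpF⟩
    · rw [Ccomm_equiv e]
      exact ⟨p, mem_Ccomm_SL hF hodd hn hp hpF⟩
    · rw [Ccomm_equiv e]
      exact ⟨p, mem_Ccomm_PSLn hF hodd hn hp hpF⟩

end Pool.Agent.Results.MP_5fbfc2_al.LocalPartition
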