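import Pool.Agent.Lib.MP_5fbfc2_al.CC.General

/-!
# MP_5fbfc2_al: a criterion for a subgroup and its linear characters, and its consequences

`Ccomm G` is defined in `Pool/Agent/Lib/MP_5fbfc2_al/IndDefs.lean`.
-/

namespace Pool.Agent.Results.MP_5fbfc2_al.NormalCentraliser

open Pool.Agent.MP_5fbfc2_al Pool.Agent.MP_5fbfc2_al.CC

/-- **Theorem.**  Let `G` be a finite group and `K` a nonabelian subgroup such that one of the
following holds; `C_K(v)` is `(Subgroup.centralizer {v}).subgroupOf K`.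
(a) `K` has a normal subgroup `N` with `K / N` cyclic, and there is a number `D` which divides
    `|C_K(v)|` for all `v ∈ G` with `C_K(v) ≤ N`, such that `D ^ 2` does not divide the number of
    commuting pairs `(v, k) ∈ K × K` with `C_K(v) ≤ N`.
(b) For some `u ∈ K` the group `N = C_K(u)` is normal in `K` with `K / N` cyclic, and no
    `C_K(v)`, `v ∈ G`, is properly contained in `N`.
(c) For some `m` the numbers `|K : C_K(v)|`, `v ∈ G`, are all equal to `1` or `m`.
(d) `[K, G]` has prime order, or `[K, G] = [K, K]` is cyclic and centralised by `K`.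
(e) `G = K C_G(K)` (for example `K = G`), and `K` has an abelian normal subgroup `A` with `K / A`
    cyclic or `[K, K]` is cyclic of odd prime power order.
Then `Ccomm(G)` contains a prime divisor of `|K|`.  (The cases (b)-(e) are consequences of (a).) -/
theorem result (G : Type) [Group G] [Finite G] (K : Subgroup G)
    (hK : ¬ ∀ a ∈ K, ∀ b ∈ K, a * b = b * a)
    (h :
      (∃ (N : Subgroup K) (_ : N.Normal) (D : ℕ), IsCyclic (K ⧸ N) ∧
        (∀ v : G, (Subgroup.centralizer ({v} : Set G)).subgroupOf K ≤ N →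
          D ∣ Nat.card ((Subgroup.centralizer ({v} : Set G)).subgroupOf K)) ∧
        ¬ D ^ 2 ∣ Nat.card {x : K × K // x.1 * x.2 = x.2 * x.1 ∧
          (Subgroup.centralizer ({(x.1 : G)} : Set G)).subgroupOf K ≤ N}) ∨
      (∃ (N : Subgroup K) (_ : N.Normal), IsCyclic (K ⧸ N) ∧
        (∃ u ∈ K, (Subgroup.centralizer ({u} : Set G)).subgroupOf K = N) ∧
        ∀ v : G, (Subgroup.centralizer ({v} : Set G)).subgroupOf K ≤ N →
          (Subgroup.centralizer ({v} : Set G)).subgroupOf K = N) ∨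
      (∃ m : ℕ, ∀ v : G, ((Subgroup.centralizer ({v} : Set G)).subgroupOf K).index = 1 ∨
        ((Subgroup.centralizer ({v} : Set G)).subgroupOf K).index = m) ∨
      ((Nat.card (⁅K, (⊤ : Subgroup G)⁆ : Subgroup G)).Prime ∨
        (⁅K, (⊤ : Subgroup G)⁆ = ⁅K, K⁆ ∧ IsCyclic (⁅K, K⁆ : Subgroup G) ∧
          ∀ k ∈ K, ∀ w ∈ ⁅K, K⁆, k * w = w * k)) ∨
      ((∀ g : G, ∃ k ∈ K, ∃ c ∈ Subgroup.centralizer (K : Set G), k * c = g) ∧
        ((∃ (A : Subgroup K) (_ : A.Normal), (∀ a ∈ A, ∀ b ∈ A, a * b = b * a) ∧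
            IsCyclic (K ⧸ A)) ∨
          (IsCyclic (commutator K) ∧
            ∃ q k : ℕ, q.Prime ∧ q ≠ 2 ∧ Nat.card (commutator K) = q ^ k)))) :
    ∃ p ∈ Ccomm G, p ∣ Nat.card K := by
  have hna : ¬ ∀ x y : K, x * y = y * x := fun h1 => hK fun a ha b hb =>
    congrArg Subtype.val (h1 ⟨a, ha⟩ ⟨b, hb⟩)
  rcases h with ⟨N, hN, D, hcyc, hD, hS⟩ | ⟨N, hN, hcyc, ⟨u, huK, hu⟩, hmin⟩ | ⟨m, hm⟩ |
    (h | ⟨h1, h2, h3⟩) | ⟨hKC, ⟨A, hA, hab, hcyc⟩ | ⟨hcyc, q, k, hq, hq2, hcard⟩⟩
  · exact exists_prime_of_pairs K N hcyc D hD hS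
  · have hne : N ≠ ⊤ := by
      intro hNt
      apply hK
      intro x hx y hy
      have h1 : centIn K y = N := hmin y (by rw [hNt]; exact le_top)
      have h2 : (⟨x, hx⟩ : K) ∈ centIn K y := by
        rw [h1, hNt]; exact Subgroup.mem_top _
      exact (mem_centIn.1 h2).symm
    obtain ⟨p, hp, hdvd⟩ := exists_prime_of_minimal_centIn K N hcyc hne ⟨u, huK⟩ hu hmin
    exact ⟨p, hp, hdvd.trans (Subgroup.card_subgroup_dvd_card N)⟩
  · exact mem_of_two_sizes K m hm hK
  · exact exists_prime_of_prime_comm K h hK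
  · exact exists_prime_of_cyclic_comm K h1.le h2 h3 hK
  · exact exists_prime_of_central K hKC (hasMin_of_abelian_by_cyclic A hab hcyc hna)
  · rcases Nat.eq_zero_or_pos k with hk | hk
    · exfalso
      apply hna
      intro x y
      rw [hk, pow_zero] at hcard
      have h1 : commutator K = ⊥ := Subgroup.card_eq_one.1 hcard
      have h2 := mem_commutator' x y
      rw [h1, Subgroup.mem_bot, commutatorElement_eq_one_iff_mul_comm] at h2
      exact h2
    · obtain ⟨j, rfl⟩ : ∃ j, k = j + 1 := ⟨k - 1, by omega⟩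
      exact exists_prime_of_central K hKC (hasMin_of_cyclic_pow hq hq2 hcyc hcard)

end Pool.Agent.Results.MP_5fbfc2_al.NormalCentraliser
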